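import Pool.Agent.W666.GB.Main

/-!
# The Singer-Hopf sign in all even dimensions: curvature tensors at a fixed relative distance from
constant negative curvature

At a point of a Riemannian manifold of dimension `n = 2 m` let `-κ < 0` be the mean of the sectional
curvatures and suppose that the Hilbert-Schmidt distance of the curvature tensor `R` to the tensor of
constant curvature `-κ` is at most `10⁻⁶ κ n`, and the same for the Ricci tensor (the norm of the tensor of
constant curvature `-κ` is `κ √(2 n (n - 1))`, so that the relative distance of `R` is allowed to be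
`10⁻⁶ / √2`, in every dimension). Then `(-1) ^ m` times the Gauss-Bonnet-Chern integrand is between `4/5` and
`6/5` of its value for constant curvature `-κ`. The condition holds if all sectional curvatures lie in
`[-b, -a]`, `0 < a`, `b - a ≤ (3/4) 10⁻⁶ a / √n`.

Proof (`Pool/Agent/W666/GB/`): the integrand is expanded in powers of the difference `E` to the
tensor of constant curvature. The term of order `k` is a mixed discriminant type sum over partial matchings,
which is bounded by a decoupling argument with random signs, Hadamard's inequality, and moments of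
polynomial chaoses of degree two, in terms of the Hilbert-Schmidt norms of `E` and of its Ricci
contraction only.
-/

set_option autoImplicit false

namespace Pool.Agent.Results.MP_9d0d86_gt.HilbertSchmidtPinching

open Pool.Agent.W666.GB MeasureTheory

/-- sectional curvatures in `[-b, -a]` -/
theorem sec_two {V : Type} [NormedAddCommGroup V] [InnerProductSpace ℝ V] {m : ℕ}
    (e : OrthonormalBasis (Fin m × Bool) ℝ V) {R : V → V → V → V → ℝ} (hm : 0 < m)
    (hR : AlgCurv R) {a b : ℝ} (ha : 0 < a) (hs : SecIn R (-b) (-a))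
    (hab : b - a ≤ 3 / 4 * (1 / 10 ^ 6) * a / Real.sqrt (2 * m)) :
    4 / 5 * roundGB m a ≤ (-1) ^ m * gbc e R ∧ (-1) ^ m * gbc e R ≤ 6 / 5 * roundGB m b := by
  refine ⟨sec_pinched e hm hR ha hs hab, ?_⟩
  have hm1 : (1 : ℝ) ≤ m := by exact_mod_cast hm
  have hpos : (0 : ℝ) < 2 * m * (2 * m - 1) := by nlinarith
  obtain ⟨h1, h2⟩ := sec_bounds e hm hR hs
  set κ : ℝ := -scal e R / (2 * m * (2 * m - 1)) with hκ
  have hκ0 : 0 < κ := lt_of_lt_of_le ha h1
  have hsc : scal e R = -(κ * (2 * m * (2 * m - 1))) := by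
    rw [hκ, div_mul_cancel₀ _ hpos.ne', neg_neg]
  have hq0 : 0 < Real.sqrt (2 * m) := Real.sqrt_pos.mpr (by positivity)
  set ε : ℝ := 3 / 4 * (1 / 10 ^ 6) / Real.sqrt (2 * m) with hε
  have hε0 : 0 < ε := by positivity
  have hab' : b - a ≤ ε * a := by
    have : ε * a = 3 / 4 * (1 / 10 ^ 6) * a / Real.sqrt (2 * m) := by rw [hε]; ring
    rw [this]; exact hab
  have hεκ : ε * a ≤ ε * κ := mul_le_mul_of_nonneg_left h1 hε0.le
  have hnear : Near e R κ := by
    refine ⟨hsc, Or.inr ?_⟩
    intro x y hx hy hxy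
    obtain ⟨h3, h4⟩ := hs x y hx hy hxy
    constructor
    · calc -((1 + 3 / 4 * (1 / 10 ^ 6) / Real.sqrt (2 * m)) * κ) = -(κ + ε * κ) := by
            rw [hε]; ring
        _ ≤ -b := by linarith
        _ ≤ _ := h3
    · calc R x y x y ≤ -a := h4
        _ ≤ -(κ - ε * κ) := by linarith
        _ = _ := by rw [hε]; ring
  have h5 := (abs_le.mp (near_close e hR hκ0 hnear)).2
  have h6 : roundGB m κ ≤ roundGB m b := by
    unfold roundGB
    have hπ := Real.pi_pos
    exact mul_le_mul_of_nonneg_left (pow_le_pow_left₀ hκ0.le h2 m) (by positivity)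
  linarith

/-- **The Gauss-Bonnet-Chern integrand near constant negative curvature, with constants that do not
depend on the dimension**: the pointwise inequalities (Hilbert-Schmidt pinching, sectional pinching) and
the integrated forms. -/
theorem result :
    -- the pointwise inequality
    (∀ (m : ℕ) (V : Type) [NormedAddCommGroup V] [InnerProductSpace ℝ V]
      (e : OrthonormalBasis (Fin m × Bool) ℝ V) (R : V → V → V → V → ℝ) (κ : ℝ),
      AlgCurv R → 0 < κ → scal e R = -(κ * (2 * m * (2 * m - 1))) →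
      devR e R κ ≤ (1 / 10 ^ 6 * κ * (2 * m)) ^ 2 →
      devRic e R κ ≤ (1 / 10 ^ 6 * κ * (2 * m)) ^ 2 →
        |(-1) ^ m * gbc e R - roundGB m κ| ≤ 1 / 5 * roundGB m κ) ∧
    -- pinched sectional curvatures
    (∀ (m : ℕ) (V : Type) [NormedAddCommGroup V] [InnerProductSpace ℝ V]
      (e : OrthonormalBasis (Fin m × Bool) ℝ V) (R : V → V → V → V → ℝ) (a b : ℝ),
      0 < m → AlgCurv R → 0 < a → SecIn R (-b) (-a) →
      b - a ≤ 3 / 4 * (1 / 10 ^ 6) * a / Real.sqrt (2 * m) →
        4 / 5 * roundGB m a ≤ (-1) ^ m * gbc e R ∧ (-1) ^ m * gbc e R ≤ 6 / 5 * roundGB m b) ∧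
    -- the sign of the integral
    (∀ (m : ℕ) (M : Type) [MeasurableSpace M] (μ : Measure M) (K : CurvField m M) (κ : M → ℝ),
      μ ≠ 0 → Integrable K.gb μ →
      (∀ p, 0 < κ p ∧ scal (K.e p) (K.R p) = -(κ p * (2 * m * (2 * m - 1))) ∧
        devR (K.e p) (K.R p) (κ p) ≤ (1 / 10 ^ 6 * κ p * (2 * m)) ^ 2 ∧
        devRic (K.e p) (K.R p) (κ p) ≤ (1 / 10 ^ 6 * κ p * (2 * m)) ^ 2) →
      0 < (-1) ^ m * ∫ p, K.gb p ∂μ) ∧
    -- the integral and the volume
    (∀ (m : ℕ) (M : Type) [MeasurableSpace M] (μ : Measure M) [IsFiniteMeasure μ]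
      (K : CurvField m M) (a b : ℝ), 0 < m → 0 < a → Integrable K.gb μ →
      (∀ p, SecIn (K.R p) (-b) (-a)) →
      b - a ≤ 3 / 4 * (1 / 10 ^ 6) * a / Real.sqrt (2 * m) →
      4 / 5 * roundGB m a * μ.real Set.univ ≤ (-1) ^ m * ∫ p, K.gb p ∂μ ∧
        (-1) ^ m * ∫ p, K.gb p ∂μ ≤ 6 / 5 * roundGB m b * μ.real Set.univ) := by
  refine ⟨?_, ?_, ?_, ?_⟩
  · intro m V _ _ e R κ hR hκ hs h4 h2
    exact gbc_close e hR hκ hs h4 h2
  · intro m V _ _ e R a b hm hR ha hs hab
    exact sec_two e hm hR ha hs hab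
  · intro m M _ μ K κ hμ hi h
    have h0 : ∀ p, 0 < (-1) ^ m * K.gb p := by
      intro p
      obtain ⟨hk, hs, h4, h2⟩ := h p
      exact near_pos (K.e p) (K.curv p) hk ⟨hs, Or.inl ⟨h4, h2⟩⟩
    rw [← integral_const_mul]
    rw [integral_pos_iff_support_of_nonneg (fun p => (h0 p).le) (hi.const_mul _)]
    have : Function.support (fun p => (-1 : ℝ) ^ m * K.gb p) = Set.univ :=
      Set.eq_univ_of_forall fun p => (h0 p).ne'
    rw [this]
    exact (Measure.measure_univ_pos).2 hμ
  · intro m M _ μ _ K a b hm ha hi hs hab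
    have h0 : ∀ p, 4 / 5 * roundGB m a ≤ (-1) ^ m * K.gb p ∧
        (-1) ^ m * K.gb p ≤ 6 / 5 * roundGB m b :=
      fun p => sec_two (K.e p) hm (K.curv p) ha (hs p) hab
    rw [← integral_const_mul]
    constructor
    · have h := integral_mono (μ := μ) (integrable_const (4 / 5 * roundGB m a)) (hi.const_mul _)
        fun p => (h0 p).1
      rw [integral_const, smul_eq_mul, mul_comm] at h
      exact h
    · have h := integral_mono (μ := μ) (hi.const_mul _) (integrable_const (6 / 5 * roundGB m b))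
        fun p => (h0 p).2
      rw [integral_const, smul_eq_mul, mul_comm (μ.real Set.univ)] at h
      exact h

end Pool.Agent.Results.MP_9d0d86_gt.HilbertSchmidtPinching
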