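import Pool.Agent.Y365.FS.Odd
import Pool.Agent.W497.CC.Sum
import Pool.Agent.W497.FS.Nice
import Pool.Agent.TH652.Dual7
import Pool.Agent.W907.SM.All

/-!
# The Singer-Hopf inequality for cubical manifolds with vertex links in the class `AQ`

The cubical complexes are finite; if all vertex links are flag complexes, then the complex is
nonpositively curved and hence aspherical, and if they are homology spheres of dimension `2 m - 1` it
is a closed (homology) manifold of dimension `2 m`. Vertex links are given by graphs `G`: the link is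
the flag complex of `G`, its faces are the cliques of `G`.

`HSph (2 m) G`: the flag complex of `G` is a real homology manifold with the real homology of the
`(2 m - 1)`-sphere (for example a flag triangulation of the sphere `S^(2 m - 1)`).

`AQ (2 m) G` is the class of graphs of the starting library. It contains the order complexes of the
graded posets of length `2 m` which are Gorenstein* over `F_2` (for example all barycentric
subdivisions of triangulated spheres), and is closed under full subcomplexes, joins (the numbers add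
up), subdividing and deleting edges, gluing and adding vertices along subcomplexes of the class
`2 m - 2`; and a flag complex is in the class `AQ (2 m)` if the vertices whose links are not in the
class `AQ (2 m - 1)` span a subcomplex of dimension less than `m`.

`L2Van G i`: there are no nonzero `ℓ²` harmonic `i`-chains on the Davis complex of the right-angled
Coxeter group `W G`, that is, the `i`-th `ℓ²`-Betti number of `W G` is zero.
-/

set_option autoImplicit false

namespace Pool.Agent.Results.MP_9d0d86_gt.LinksOfClassAQ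

open Pool.Agent.W497.FS Pool.Agent.W497.CC Pool.Agent.TH652.Above
open Pool.Agent.W907.SG (L2Van chiW beta bd)

open scoped Classical in
/-- the flag complex of the graph `G`: its faces are the cliques of `G` -/
noncomputable def flagComplex {n : ℕ} (G : SimpleGraph (Fin n)) : Finset (Finset (Fin n)) :=
  Finset.univ.filter fun T => G.IsClique (T : Set (Fin n))

/-- `S` is the flag complex of a graph in the class `AQ (2 m)` and a real homology sphere of
dimension `2 m - 1` -/
def OfClassAQ (m : ℕ) {n : ℕ} (S : Finset (Finset (Fin n))) : Prop :=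
  ∃ G : SimpleGraph (Fin n), S = flagComplex G ∧ HSph (2 * m) G ∧ AQ (2 * m) G

/-- the flag sphere `S` of dimension `2 m - 1` has a join factor `C` of dimension `e - 1` with `e`
odd (each facet `G` meets `C` in `e` vertices), or every join factor `C`, of dimension `e - 1`, has
`e ≤ 2` or at most `max (2 e + 6) (3 e)` vertices -/
def SmallFactors (m : ℕ) {n : ℕ} (S : Finset (Finset (Fin n))) : Prop :=
  (∃ C : Finset (Fin n), IsFactor S C ∧ ∃ G ∈ S, G.card = 2 * m ∧ Odd (G ∩ C).card) ∨
    ∀ C : Finset (Fin n), IsFactor S C → (∀ F ∈ S, F ⊆ C → F.card ≤ 2) ∨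
      ∃ F ∈ S, F ⊆ C ∧ C.card ≤ max (2 * F.card + 6) (3 * F.card)

/-- the link of every face `F` of even size `< 2 m` has a vertex `v` such that every 4-element face
of the link contains `v` or a neighbour of `v` -/
def HasNice (m : ℕ) {n : ℕ} (S : Finset (Finset (Fin n))) : Prop :=
  ∀ F ∈ S, Even F.card → F.card < 2 * m → ∃ v, v ∉ F ∧ insert v F ∈ S ∧
    ∀ G ∈ S, G.card = 4 → Disjoint G F → G ∪ F ∈ S → ∃ g ∈ G, ({v, g} : Finset (Fin n)) ∈ S

/-- `S` is one of the spheres treated in the earlier results of this repository -/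
def OfOldClass (m : ℕ) {n : ℕ} (S : Finset (Finset (Fin n))) : Prop :=
  ∃ (k : Type) (_ : Field k), IsFlagSphere k (2 * m) S ∧
    (numVert S ≤ 5 * m + 3 ∨ SmallFactors m S ∨ HasNice m S)

theorem mem_flagComplex {n : ℕ} {G : SimpleGraph (Fin n)} {T : Finset (Fin n)} :
    T ∈ flagComplex G ↔ G.IsClique (T : Set (Fin n)) := by
  classical
  simp [flagComplex]

theorem omega_flagComplex {n : ℕ} (G : SimpleGraph (Fin n)) : omega (flagComplex G) = chiW G := by
  classical
  unfold omega chiW flagComplex
  rw [Finset.sum_filter]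
  refine Finset.sum_congr rfl fun T _ => ?_
  by_cases h : G.IsClique (T : Set (Fin n))
  · rw [if_pos h, if_pos h, ← div_pow]
  · rw [if_neg h, if_neg h]

theorem flagComplex_sub {n : ℕ} (G : SimpleGraph (Fin n)) :
    ∀ F ∈ flagComplex G, ∀ F' : Finset (Fin n), F' ⊆ F → F' ∈ flagComplex G := by
  intro F hF F' h
  rw [mem_flagComplex] at hF ⊢
  exact hF.subset (by exact_mod_cast h)

/-- a real homology sphere of dimension `n - 1` has no cliques with more than `n` elements -/
theorem card_le_of_hSph {N d : ℕ} {G : SimpleGraph (Fin N)} (h : HSph d G) (T : Finset (Fin N))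
    (hT : G.IsClique (T : Set (Fin N))) : T.card ≤ d := by
  classical
  -- a maximal clique containing `T`
  obtain ⟨M, hM, hmax⟩ := Finset.exists_max_image
    (Finset.univ.filter fun M : Finset (Fin N) => T ⊆ M ∧ G.IsClique (M : Set (Fin N)))
    Finset.card ⟨T, by simp [hT]⟩
  rw [Finset.mem_filter] at hM
  obtain ⟨-, hTM, hMc⟩ := hM
  have hlk : Pool.Agent.W907.SM.lk G M = ∅ := by
    rw [Set.eq_empty_iff_forall_notMem]
    intro v hv
    have hvM : v ∉ M := fun hm => G.irrefl (hv v hm)
    have h1 := hmax (insert v M) (by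
      rw [Finset.mem_filter]
      refine ⟨Finset.mem_univ _, hTM.trans (Finset.subset_insert _ _), ?_⟩
      rw [Finset.coe_insert, SimpleGraph.isClique_insert]
      exact ⟨hMc, fun u hu _ => hv u hu⟩)
    rw [Finset.card_insert_of_notMem hvM] at h1
    omega
  by_contra hcon
  push Not at hcon
  have hMd : d < M.card := lt_of_lt_of_le hcon (Finset.card_le_card hTM)
  have h0 := h M hMc 0
  rw [if_neg (by omega), hlk] at h0
  -- the empty complex has a nonzero class in degree zero
  have hK : ∀ i, 0 < i → Pool.Agent.W907.SG.KK G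
      (fun _ => (- LinearMap.id : ℝ →ₗ[ℝ] ℝ)) (∅ : Set (Fin N)) ∅ i = ⊥ := by
    intro i hi
    rw [eq_bot_iff]
    intro c hc
    rw [Submodule.mem_bot]
    funext S
    refine hc.1 S ?_
    rintro ⟨-, h2, h3⟩
    have : S = ∅ := by
      rw [← Finset.coe_eq_empty]
      exact Set.subset_empty_iff.1 h2
    rw [this, Finset.card_empty] at h3
    omega
  have hB : Pool.Agent.W907.SG.BB G (fun _ => (- LinearMap.id : ℝ →ₗ[ℝ] ℝ)) (∅ : Set (Fin N)) ∅ 0 = ⊥ := by
    unfold Pool.Agent.W907.SG.BB
    rw [hK 1 one_pos, Submodule.map_bot]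
  unfold beta at h0
  rw [hB, finrank_bot, Nat.sub_zero] at h0
  have hfin : FiniteDimensional ℝ (Pool.Agent.W907.SG.ZZ G (fun _ => (- LinearMap.id : ℝ →ₗ[ℝ] ℝ))
      (∅ : Set (Fin N)) ∅ 0) := inferInstance
  have h1 : Pool.Agent.W907.SG.ZZ G (fun _ => (- LinearMap.id : ℝ →ₗ[ℝ] ℝ)) (∅ : Set (Fin N)) ∅ 0 = ⊥ :=
    Submodule.finrank_eq_zero.1 h0
  have hc : (fun S : Finset (Fin N) => if S = ∅ then (1 : ℝ) else 0) ∈
      Pool.Agent.W907.SG.ZZ G (fun _ => (- LinearMap.id : ℝ →ₗ[ℝ] ℝ)) (∅ : Set (Fin N)) ∅ 0 := by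
    refine ⟨⟨?_, ?_⟩, ?_⟩
    · intro S hS
      refine if_neg ?_
      rintro rfl
      exact hS ⟨by simp, by simp, rfl⟩
    · intro S t _
      rfl
    · rw [SetLike.mem_coe, LinearMap.mem_ker]
      funext S
      rw [Pool.Agent.W907.SG.bd_apply]
      refine Finset.sum_eq_zero fun v _ => ?_
      rw [if_neg (Finset.insert_ne_empty v S), smul_zero]
  rw [h1, Submodule.mem_bot] at hc
  have := congrFun hc ∅
  simp at this

/-- `4 ^ m ω` is an integer -/
theorem exists_int {N m : ℕ} {G : SimpleGraph (Fin N)} (h : HSph (2 * m) G) :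
    ∃ z : ℤ, 4 ^ m * chiW G = z := by
  classical
  refine ⟨∑ T : Finset (Fin N), if G.IsClique (T : Set (Fin N)) then
    (-1) ^ T.card * 2 ^ (2 * m - T.card) else 0, ?_⟩
  unfold chiW
  rw [Finset.mul_sum]
  push_cast
  refine Finset.sum_congr rfl fun T _ => ?_
  by_cases hT : G.IsClique (T : Set (Fin N))
  · rw [if_pos hT, if_pos hT]
    have h1 := card_le_of_hSph h T hT
    obtain ⟨r, hr⟩ := Nat.exists_eq_add_of_le h1
    rw [hr, Nat.add_sub_cancel_left]
    have h4 : (4 : ℚ) ^ m = 2 ^ T.card * 2 ^ r := by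
      rw [← pow_add, ← hr, pow_mul]
      norm_num
    rw [h4, div_pow]
    field_simp
  · rw [if_neg hT, if_neg hT, mul_zero]

/-- a vertex link of class `AQ`: the inequality, and the gap -/
theorem link_gap {N m : ℕ} {G : SimpleGraph (Fin N)} (h : HSph (2 * m) G) (hA : AQ (2 * m) G) :
    0 ≤ (-1) ^ m * chiW G ∧ ((∀ i, L2Van G i) ↔ chiW G = 0) ∧
      (¬ (∀ i, L2Van G i) → 1 ≤ 4 ^ m * ((-1) ^ m * chiW G)) := by
  have h1 := charney_davis_AQ h hA
  have h2 : (∀ i, L2Van G i) ↔ chiW G = 0 :=
    Pool.Agent.W907.SM.l2eul (Fin N) G m fun i hi => singer_AQ h hA i (by omega)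
  refine ⟨h1, h2, fun h3 => ?_⟩
  have h4 : chiW G ≠ 0 := fun h5 => h3 (h2.2 h5)
  obtain ⟨z, hz⟩ := exists_int h
  have h5 : (0 : ℚ) < 4 ^ m * ((-1) ^ m * chiW G) := by
    have h6 : (-1 : ℚ) ^ m * chiW G ≠ 0 := mul_ne_zero (pow_ne_zero _ (by norm_num)) h4
    exact mul_pos (by positivity) (lt_of_le_of_ne h1 h6.symm)
  have h6 : (4 : ℚ) ^ m * ((-1) ^ m * chiW G) = (((-1) ^ m * z : ℤ) : ℚ) := by
    push_cast
    rw [← hz]
    ring
  rw [h6] at h5 ⊢
  have h7 : (0 : ℤ) < (-1) ^ m * z := by exact_mod_cast h5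
  exact_mod_cast h7

/-- the inequality for one vertex link -/
theorem link_nonneg {m n : ℕ} {S : Finset (Finset (Fin n))} (h : OfClassAQ m S ∨ OfOldClass m S) :
    (∀ F ∈ S, ∀ F' : Finset (Fin n), F' ⊆ F → F' ∈ S) ∧ 0 ≤ (-1) ^ m * omega S := by
  rcases h with ⟨G, rfl, h1, h2⟩ | ⟨k, _, h1, h2⟩
  · refine ⟨flagComplex_sub G, ?_⟩
    rw [omega_flagComplex]
    exact (link_gap h1 h2).1
  · refine ⟨?_, ?_⟩
    · obtain ⟨r, hr⟩ := h1
      exact hr.1
    · rcases h2 with h2 | (h2 | h2) | h2
      · exact cd_two h1 h2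
      · rw [Y365.FS.cd_odd h1 h2, mul_zero]
      · exact Y365.FS.cd_factors h1 fun C hC => Or.inr (h2 C hC)
      · exact cd_four h1 h2

open scoped Classical in
/-- Let `P` be a finite cubical complex of dimension `2 m` with Euler characteristic `χ`.
(1) If each vertex link is a homology sphere in the class `AQ (2 m)` or one of the spheres of the
earlier results (few vertices, small join factors, nice vertices), then `(-1)^m χ ≥ 0`.
(2) If all vertex links are the flag complexes of graphs `G v` of the class `AQ (2 m)` and real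
homology spheres, then the number of the vertices `v` for which the right-angled Coxeter group
`W (G v)` has a nonzero `ℓ²`-Betti number is at most `4^m (-1)^m χ`; and `χ = 0` if and only if there
is no such vertex. -/
theorem result (m : ℕ) (P : Type) [Fintype P] [PartialOrder P] (dim : P → ℕ)
    (hP : IsCubical P dim) :
    ((∀ v : P, dim v = 0 → ∃ (n : ℕ) (S : Finset (Finset (Fin n))),
      IsLink v S ∧ (OfClassAQ m S ∨ OfOldClass m S)) → 0 ≤ (-1) ^ m * chi P dim) ∧
    ∀ (n : P → ℕ) (G : ∀ v, SimpleGraph (Fin (n v))),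
      (∀ v : P, dim v = 0 → IsLink v (flagComplex (G v)) ∧ HSph (2 * m) (G v) ∧ AQ (2 * m) (G v)) →
      ((Finset.univ.filter fun v : P => dim v = 0 ∧ ∃ i, ¬ L2Van (G v) i).card : ℤ) ≤
        4 ^ m * ((-1) ^ m * chi P dim) ∧
      (chi P dim = 0 ↔ ∀ v : P, dim v = 0 → ∀ i, L2Van (G v) i) := by
  refine ⟨fun hL => ?_, fun n G hG => ?_⟩
  · have h1 : ∀ v : P, ∃ p : Σ n : ℕ, Finset (Finset (Fin n)), dim v = 0 →
        IsLink v p.2 ∧ (OfClassAQ m p.2 ∨ OfOldClass m p.2) := by
      intro v
      by_cases hv : dim v = 0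
      · obtain ⟨n, S, h⟩ := hL v hv
        exact ⟨⟨n, S⟩, fun _ => h⟩
      · exact ⟨⟨0, ∅⟩, fun h => absurd h hv⟩
    choose p hp using h1
    have h2 := chi_eq hP (fun v => (p v).1) (fun v => (p v).2) (fun v hv => (hp v hv).1)
      (fun v hv => (link_nonneg (hp v hv).2).1)
    have h3 : (0 : ℚ) ≤ (-1) ^ m * ((chi P dim : ℤ) : ℚ) := by
      rw [h2, Finset.mul_sum]
      refine Finset.sum_nonneg fun v hv => ?_
      exact (link_nonneg (hp v (Finset.mem_filter.mp hv).2).2).2
    exact_mod_cast h3
  · have h2 := chi_eq hP n (fun v => flagComplex (G v)) (fun v hv => (hG v hv).1)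
      (fun v _ => flagComplex_sub (G v))
    have h3 : ((chi P dim : ℤ) : ℚ) = ∑ v ∈ Finset.univ.filter (fun v : P => dim v = 0),
        chiW (G v) := by
      rw [h2]
      exact Finset.sum_congr rfl fun v _ => omega_flagComplex (G v)
    have h4 : ∀ v ∈ Finset.univ.filter (fun v : P => dim v = 0), 0 ≤ (-1) ^ m * chiW (G v) := by
      intro v hv
      obtain ⟨-, h5, h6⟩ := hG v (Finset.mem_filter.1 hv).2
      exact (link_gap h5 h6).1
    have h5 : (-1 : ℚ) ^ m * ((chi P dim : ℤ) : ℚ) =
        ∑ v ∈ Finset.univ.filter (fun v : P => dim v = 0), (-1) ^ m * chiW (G v) := by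
      rw [h3, Finset.mul_sum]
    refine ⟨?_, ?_⟩
    · have h6 : ((Finset.univ.filter fun v : P => dim v = 0 ∧ ∃ i, ¬ L2Van (G v) i).card : ℚ) ≤
          4 ^ m * ((-1) ^ m * ((chi P dim : ℤ) : ℚ)) := by
        rw [h5, Finset.mul_sum, ← Finset.filter_filter, Finset.card_eq_sum_ones]
        push_cast
        rw [Finset.sum_filter]
        refine Finset.sum_le_sum fun v hv => ?_
        obtain ⟨-, h7, h8⟩ := hG v (Finset.mem_filter.1 hv).2
        by_cases h9 : ∃ i, ¬ L2Van (G v) i
        · rw [if_pos h9]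
          exact (link_gap h7 h8).2.2 (by push Not; exact h9)
        · rw [if_neg h9]
          exact mul_nonneg (by positivity) (h4 v hv)
      exact_mod_cast h6
    · have hne : (-1 : ℚ) ^ m ≠ 0 := pow_ne_zero _ (by norm_num)
      constructor
      · intro h6 v hv
        have h7 : ∑ v ∈ Finset.univ.filter (fun v : P => dim v = 0), (-1) ^ m * chiW (G v) = 0 := by
          rw [← h5, h6]
          simp
        have h8 := (Finset.sum_eq_zero_iff_of_nonneg h4).1 h7 v (by simp [hv])
        obtain ⟨-, h9, h10⟩ := hG v hv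
        exact (link_gap h9 h10).2.1.2 ((mul_eq_zero.1 h8).resolve_left hne)
      · intro h6
        have h7 : ((chi P dim : ℤ) : ℚ) = 0 := by
          rw [h3]
          refine Finset.sum_eq_zero fun v hv => ?_
          have hv' := (Finset.mem_filter.1 hv).2
          obtain ⟨-, h9, h10⟩ := hG v hv'
          exact (link_gap h9 h10).2.1.1 (h6 v hv')
        exact_mod_cast h7

end Pool.Agent.Results.MP_9d0d86_gt.LinksOfClassAQ
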