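import Pool.Agent.X183.HM.Six

/-!
# Singer-Hopf sign in dimension six: upper sectional and lower Ricci bound relative to any metric

Let `R` be an algebraic curvature tensor in dimension six and let `h` be any inner product on the
same space. If the sectional curvatures of `R` relative to `h` are at most `-c` and its Ricci
curvatures relative to `h` are at least `-14 c` (for curvature `-c` they are `-5 c`), then the
Gauss-Bonnet-Chern integrand is at most `-roundGB 3 1 · c³` times the square of the ratio of the
volume elements. In particular it is negative if the sectional curvatures relative to an Einstein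
metric of `R`, normalised by `Ric = -5`, are at most `-5 / 14`.

The bound for `h` equal to the given inner product is in the module
`Pool/Agent/TH570/Hopf/Final.lean` of the starting repository (not handed in; its mirror image for
positive curvature is the starting result `MP_4a593f_gt.RicciPinchedDimSix`); the transformation rule
is in `Pool/Agent/X179/EP/`.
-/

set_option autoImplicit false

namespace Pool.Agent.Results.MP_9d0d86_gt.RicciAnyMetric

open MeasureTheory Pool.Agent.X183.HM
open Pool.Agent.W666.GB (AlgCurv gbc scal roundGB CurvField)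
open Pool.Agent.X179.EP (IsMetric Ortho det_pos)

/-- The pointwise bound for sectional curvatures at most `-c` and Ricci curvatures at least
`-14 c`. -/
def PointBound : Prop :=
  ∀ (V : Type) [NormedAddCommGroup V] [InnerProductSpace ℝ V]
    (e : OrthonormalBasis (Fin 3 × Bool) ℝ V) (R : V → V → V → V → ℝ) (c : ℝ),
    AlgCurv R → 0 ≤ c →
    (∀ x y : V, ‖x‖ = 1 → ‖y‖ = 1 → inner ℝ x y = 0 → R x y x y ≤ -c) →
    (∀ x : V, ‖x‖ = 1 → -(14 * c) ≤ ricB R e x) →
      gbc e R ≤ roundGB 3 1 * (c ^ 2 * (scal e R / 10 + 2 * c)) ∧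
      roundGB 3 1 * (c ^ 2 * (scal e R / 10 + 2 * c)) ≤ -(roundGB 3 1 * c ^ 3)

/-- `h` is an inner product, `b` is a basis orthonormal for `h`, `c ≥ 0`, and relative to `h` the
sectional curvatures of `R` are at most `-c` and the Ricci curvatures are at least `-14 c`. -/
def CurvLe {V : Type} [NormedAddCommGroup V] [InnerProductSpace ℝ V] (R : V → V → V → V → ℝ)
    (h : LinearMap.BilinForm ℝ V) (b : Fin 3 × Bool → V) (c : ℝ) : Prop :=
  IsMetric h ∧ Ortho h b ∧ 0 ≤ c ∧
    (∀ x y : V, h x x = 1 → h y y = 1 → h x y = 0 → R x y x y ≤ -c) ∧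
    ∀ x : V, h x x = 1 → -(14 * c) ≤ ricB R b x

/-- The Gram determinant of the orthonormal basis `e` for `h`: the square of the ratio of the volume
elements of `h` and of the given inner product. -/
noncomputable def gram {V : Type} [NormedAddCommGroup V] [InnerProductSpace ℝ V]
    (e : OrthonormalBasis (Fin 3 × Bool) ℝ V) (h : LinearMap.BilinForm ℝ V) : ℝ :=
  Matrix.det fun i j => h (e i) (e j)

/-- The bound relative to any inner product `h`. -/
def OtherMetric : Prop :=
  ∀ (V : Type) [NormedAddCommGroup V] [InnerProductSpace ℝ V]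
    (e : OrthonormalBasis (Fin 3 × Bool) ℝ V) (R : V → V → V → V → ℝ)
    (h : LinearMap.BilinForm ℝ V) (b : Fin 3 × Bool → V) (c : ℝ), AlgCurv R → CurvLe R h b c →
      0 < gram e h ∧
      gbc e R ≤ gram e h * (roundGB 3 1 * (c ^ 2 * (scalB R b / 10 + 2 * c))) ∧
      gram e h * (roundGB 3 1 * (c ^ 2 * (scalB R b / 10 + 2 * c))) ≤
        -(gram e h * (roundGB 3 1 * c ^ 3))

/-- If `h` is an Einstein metric of `R`, normalised by `Ric = -5 h`, and the sectional curvatures
relative to `h` are at most `-5 / 14`, then the integrand is at most `-(100 / 343)` times its absolute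
value for curvature one, times the Gram determinant. -/
def EinsteinCase : Prop :=
  ∀ (V : Type) [NormedAddCommGroup V] [InnerProductSpace ℝ V]
    (e : OrthonormalBasis (Fin 3 × Bool) ℝ V) (R : V → V → V → V → ℝ)
    (h : LinearMap.BilinForm ℝ V) (b : Fin 3 × Bool → V), AlgCurv R → IsMetric h → Ortho h b →
    (∀ v w : V, ∑ i, R (b i) v (b i) w = -(5 * h v w)) →
    (∀ x y : V, h x x = 1 → h y y = 1 → h x y = 0 → R x y x y ≤ -(5 / 14)) →
      0 < gram e h ∧ gbc e R ≤ -(100 / 343 * (gram e h * roundGB 3 1))

/-- The integrated bound, for fields of tensors, inner products and numbers `c`; the integral of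
`K.gb` is the Euler characteristic, for the curvature tensor of a closed Riemannian six-manifold. -/
def FieldBound : Prop :=
  ∀ (M : Type) [MeasurableSpace M] (μ : Measure M) (K : CurvField 3 M)
    (h : ∀ p, LinearMap.BilinForm ℝ (K.V p)) (b : ∀ p, Fin 3 × Bool → K.V p) (c : M → ℝ),
    (∀ p, CurvLe (K.R p) (h p) (b p) (c p)) → Integrable K.gb μ →
    Integrable (fun p => gram (K.e p) (h p) * c p ^ 3) μ →
      ∫ p, K.gb p ∂μ ≤ -(roundGB 3 1 * ∫ p, gram (K.e p) (h p) * c p ^ 3 ∂μ)

/-- If at every point some inner product `h` and some `c` satisfy the conditions, the integral is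
nonpositive; it is negative if moreover `c > 0` is possible on a set which is not null. -/
def PointwiseSign : Prop :=
  ∀ (M : Type) [MeasurableSpace M] (μ : Measure M) (K : CurvField 3 M), Integrable K.gb μ →
    (∀ p, ∃ h b c, CurvLe (K.R p) h b c) →
      ∫ p, K.gb p ∂μ ≤ 0 ∧
      (μ {p | ∃ h b c, CurvLe (K.R p) h b c ∧ 0 < c} ≠ 0 → ∫ p, K.gb p ∂μ < 0)

theorem other : OtherMetric := by
  intro V _ _ e R h b c hR hc
  obtain ⟨hh, hb, hc0, hs, hr⟩ := hc
  have h1 : 0 < gram e h := det_pos e hb
  have h2 := ric_h e hR hb hc0 hs hr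
  refine ⟨h1, h2.1, ?_⟩
  have h3 := mul_le_mul_of_nonneg_left h2.2 h1.le
  linarith

theorem neg_of {V : Type} [NormedAddCommGroup V] [InnerProductSpace ℝ V]
    (e : OrthonormalBasis (Fin 3 × Bool) ℝ V) {R : V → V → V → V → ℝ}
    {h : LinearMap.BilinForm ℝ V} {b : Fin 3 × Bool → V} {c : ℝ} (hR : AlgCurv R)
    (hc : CurvLe R h b c) : gbc e R ≤ 0 ∧ (0 < c → gbc e R < 0) := by
  obtain ⟨h1, h2, h3⟩ := other V e R h b c hR hc
  have hk := round_pos
  have h4 := h2.trans h3
  constructor
  · have h5 : 0 ≤ gram e h * (roundGB 3 1 * c ^ 3) :=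
      mul_nonneg h1.le (mul_nonneg hk.le (pow_nonneg hc.2.2.1 3))
    linarith
  · intro h0
    have h5 : 0 < gram e h * (roundGB 3 1 * c ^ 3) :=
      mul_pos h1 (mul_pos hk (pow_pos h0 3))
    linarith

theorem einstein : EinsteinCase := by
  intro V _ _ e R h b hR hh hb hE hs
  have hsym : ∀ x y : V, R x y x y = R y x y x := by
    intro x y
    have a1 := hR.anti x y y x
    have a2 := hR.pair y x x y
    have a3 := hR.anti x y x y
    linarith
  have hric : ∀ x : V, ricB R b x = -(5 * h x x) := by
    intro x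
    rw [← hE x x]
    exact Finset.sum_congr rfl fun i _ => hsym _ _
  have hsc : scalB R b = -30 := by
    have h1 : scalB R b = ∑ i, ricB R b (b i) := rfl
    rw [h1]
    simp only [hric]
    have h2 : ∀ i, h (b i) (b i) = 1 := fun i => by
      rw [hb i i, if_pos rfl]
    simp only [h2]
    simp
    norm_num
  have hc : CurvLe R h b (5 / 14) := by
    refine ⟨hh, hb, by norm_num, hs, fun x hx => ?_⟩
    rw [hric, hx]
    norm_num
  obtain ⟨h1, h2, h3⟩ := other V e R h b (5 / 14) hR hc
  refine ⟨h1, h2.trans (le_of_eq ?_)⟩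
  rw [hsc]
  ring

/-- **Upper sectional and lower Ricci bound, relative to any metric.** -/
theorem result : (PointBound ∧ OtherMetric ∧ EinsteinCase) ∧ FieldBound ∧ PointwiseSign := by
  refine ⟨⟨?_, other, einstein⟩, ?_, ?_⟩
  · intro V _ _ e R c hR hc hs hr
    exact ric_neg e hR hc hs hr
  · intro M _ μ K h b c hc hi hi2
    rw [← integral_const_mul, ← integral_neg]
    refine integral_mono hi (hi2.const_mul _).neg fun p => ?_
    obtain ⟨h1, h2, h3⟩ := other (K.V p) (K.e p) (K.R p) (h p) (b p) (c p) (K.curv p) (hc p)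
    calc K.gb p ≤ _ := h2.trans h3
      _ = _ := by ring
  · intro M _ μ K hi hp
    have hle : ∀ p, K.gb p ≤ 0 := by
      intro p
      obtain ⟨h, b, c, h1⟩ := hp p
      exact (neg_of (K.e p) (K.curv p) h1).1
    have h0 : ∫ p, K.gb p ∂μ ≤ 0 := integral_nonpos hle
    refine ⟨h0, fun hμ => lt_of_le_of_ne h0 fun heq => hμ ?_⟩
    have hn : 0 ≤ fun p => -K.gb p := fun p => by
      have := hle p
      simp only [Pi.zero_apply]
      linarith
    have hi' : Integrable (fun p => -K.gb p) μ := hi.neg
    have h1 : (fun p => -K.gb p) =ᵐ[μ] 0 :=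
      (integral_eq_zero_iff_of_nonneg hn hi').1 (by rw [integral_neg, heq, neg_zero])
    refine measure_mono_null ?_ h1
    rintro p ⟨h, b, c, h2, h3⟩ h5
    have h6 := (neg_of (K.e p) (K.curv p) h2).2 h3
    have h7 : -K.gb p = 0 := h5
    have h8 : K.gb p = gbc (K.e p) (K.R p) := rfl
    linarith

end Pool.Agent.Results.MP_9d0d86_gt.RicciAnyMetric
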