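import Pool.Agent.X250.Sph.Edge
import Pool.Agent.W497.CC.Sum

/-!
# The Euler characteristic of cubical manifolds and the links of the squares

The cubical complexes are finite; if all vertex links are flag complexes, then the complex is
nonpositively curved and hence aspherical, and if they are homology spheres of dimension `2 m + 1` it
is a closed (homology) manifold of dimension `2 m + 2`.  Vertex links are given by graphs `G`: the link
is the flag complex of `G`, its faces are the cliques of `G`.

`HSph (2 m + 2) G`: the flag complex of `G` is a real homology manifold with the real homology of the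
`(2 m + 1)`-sphere (for example a flag triangulation of the sphere `S^(2 m + 1)`).

The link of an edge `e` of the flag complex of `G` is the flag complex of the graph induced on the set
`lk G e` of the common neighbours of `e`; if `G` belongs to the vertex `v` of the cubical complex, then
`e` belongs to a square with corner `v`, and the link of `e` is the link of this square.  We assume that
the links of the squares, which are homology `(2 m - 1)`-spheres, are in the class `AM (2 m)` of the
starting library.  It contains the order complexes of the graded posets of length `2 m` which are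
Gorenstein* over `F_2` (for example all barycentric subdivisions of triangulated spheres), and is closed
under full subcomplexes, subdividing edges, joins (the numbers add up), gluing along subcomplexes of the
class `2 m - 2`, and, in even dimensions, under passing from the vertex links to the complex.
Nothing is assumed on the links of the vertices themselves.

`chiLk G m e` is the number `(-1)^m χ(W_{lk e})`, where `χ(W_{lk e}) = ∑ (-1/2)^|T|` over the faces `T` of the
link of `e` is the Euler characteristic of its right-angled Coxeter group.
-/

set_option autoImplicit false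

namespace Pool.Agent.Results.MP_9d0d86_gt.SquareLinks

open Pool.Agent.W497.FS Pool.Agent.W497.CC Pool.Agent.TH652.Above Pool.Agent.X250.Sph
open Pool.Agent.W907.SG (chiW)

open scoped Classical in
/-- the flag complex of the graph `G`: its faces are the cliques of `G` -/
noncomputable def flagComplex {n : ℕ} (G : SimpleGraph (Fin n)) : Finset (Finset (Fin n)) :=
  Finset.univ.filter fun T => G.IsClique (T : Set (Fin n))

theorem mem_flagComplex {n : ℕ} {G : SimpleGraph (Fin n)} {T : Finset (Fin n)} :
    T ∈ flagComplex G ↔ G.IsClique (T : Set (Fin n)) := by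
  classical
  simp [flagComplex]

theorem omega_flagComplex {n : ℕ} (G : SimpleGraph (Fin n)) : omega (flagComplex G) = chiW G := by
  classical
  unfold omega chiW flagComplex
  rw [Finset.sum_filter]
  refine Finset.sum_congr rfl fun T _ => ?_
  by_cases h : G.IsClique (T : Set (Fin n))
  · rw [if_pos h, if_pos h, ← div_pow]
  · rw [if_neg h, if_neg h]

theorem flagComplex_sub {n : ℕ} (G : SimpleGraph (Fin n)) :
    ∀ F ∈ flagComplex G, ∀ F' : Finset (Fin n), F' ⊆ F → F' ∈ flagComplex G := by
  intro F hF F' h
  rw [mem_flagComplex] at hF ⊢
  exact hF.subset (by exact_mod_cast h)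

open scoped Classical in
/-- Let `P` be a finite cubical complex such that the link of each vertex `v` is the flag complex of a
graph `G v` and a homology `(2 m + 1)`-sphere, and such that the links of all the squares are in the class
`AM (2 m)`.  For each vertex `v` let `D v` be a set of edges of `P` with end `v` (vertices of the link)
such that no cube of dimension `m + 2` with corner `v` is spanned by edges in `D v`.  Then the Euler
characteristic `χ` of `P` satisfies `(-1)^(m+1) χ ≥ - (1/2) ∑ (-1)^m χ(W_{lk e})`, the sum over the pairs of a
vertex `v` and a square with corner `v` which is not spanned by two edges in `D v`.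
So `(-1)^(m+1) χ ≥ 0` if `χ(W_{lk e}) = 0` for all these squares. -/
theorem result (m : ℕ) (P : Type) [Fintype P] [PartialOrder P] (dim : P → ℕ)
    (hP : IsCubical P dim) (n : P → ℕ) (G : ∀ v, SimpleGraph (Fin (n v))) (D : ∀ v, Set (Fin (n v)))
    (hG : ∀ v : P, dim v = 0 → IsLink v (flagComplex (G v)) ∧ HSph (2 * m + 2) (G v) ∧
      (∀ e : Finset (Fin (n v)), (G v).IsClique (e : Set (Fin (n v))) → e.card = 2 →
        AM (2 * m) ((G v).induce (Pool.Agent.W907.SM.lk (G v) e))) ∧
      ∀ T : Finset (Fin (n v)), (G v).IsClique (T : Set (Fin (n v))) → (T : Set (Fin (n v))) ⊆ D v →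
        T.card < m + 2) :
    - (1 / 2 : ℚ) * (∑ v ∈ Finset.univ.filter (fun v : P => dim v = 0),
        ∑ e ∈ facesOff (G v) 2 (D v), chiLk (G v) m e) ≤ (-1) ^ (m + 1) * chi P dim ∧
    ((∀ v : P, dim v = 0 → ∀ e ∈ facesOff (G v) 2 (D v), chiLk (G v) m e = 0) →
      0 ≤ (-1) ^ (m + 1) * chi P dim) := by
  have h2 := chi_eq hP n (fun v => flagComplex (G v)) (fun v hv => (hG v hv).1)
    (fun v _ => flagComplex_sub (G v))
  have h3 : ((chi P dim : ℤ) : ℚ) = ∑ v ∈ Finset.univ.filter (fun v : P => dim v = 0),
      chiW (G v) := by
    rw [h2]
    exact Finset.sum_congr rfl fun v _ => omega_flagComplex (G v)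
  have h4 : - (1 / 2 : ℚ) * (∑ v ∈ Finset.univ.filter (fun v : P => dim v = 0),
        ∑ e ∈ facesOff (G v) 2 (D v), chiLk (G v) m e) ≤ (-1) ^ (m + 1) * ((chi P dim : ℤ) : ℚ) := by
    rw [h3, Finset.mul_sum, Finset.mul_sum]
    refine Finset.sum_le_sum fun v hv => ?_
    obtain ⟨-, h5, h6, h7⟩ := hG v (Finset.mem_filter.1 hv).2
    have hF : FaceP m 2 (G v) := fun T hT hk => P_of_AM (h6 T hT hk)
    have h8 := hF.edge h5 (D v) (lv_small h7)
    linarith
  refine ⟨h4, fun h0 => ?_⟩
  have h5 : ∑ v ∈ Finset.univ.filter (fun v : P => dim v = 0),
        ∑ e ∈ facesOff (G v) 2 (D v), chiLk (G v) m e = 0 :=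
    Finset.sum_eq_zero fun v hv => Finset.sum_eq_zero (h0 v (Finset.mem_filter.1 hv).2)
  rw [h5, mul_zero] at h4
  exact_mod_cast h4

end Pool.Agent.Results.MP_9d0d86_gt.SquareLinks
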